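import Mathlib
import Pool.Agent.H10.EH.FA

/-!
# The test function of the energy block, in terms of `rho = |z|/4`

`FAr p rho g`, `FBr p rho g` are the functions `F_A`, `F_B` as functions of `rho` (so that nothing
special happens at the origin).
-/

namespace Pool.Agent.H70.EH

open Real Set

/-- `R` as a function of `rho` -/
noncomputable def RRr (p ρ g : ℝ) : ℝ :=
  Real.sqrt ((ρ - p * Real.cosh g) ^ 2 + p * (1 - p) * (Real.sinh g) ^ 2)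

/-- `F_A` as a function of `rho` -/
noncomputable def FAr (p ρ g : ℝ) : ℝ := Real.arcosh ((ρ + RRr p ρ g) / p)

/-- `F_B` as a function of `rho` -/
noncomputable def FBr (p ρ g : ℝ) : ℝ :=
  Real.arcosh ((RRr p ρ g + Real.cosh g - ρ) / (1 - p))

theorem FAr_rh (p l g : ℝ) : FAr p (Real.exp l / 4) g = Pool.EH.FA p l g := rfl

theorem FBr_rh (p l g : ℝ) : FBr p (Real.exp l / 4) g = Pool.EH.FB p l g := rfl

theorem RRr_arg_pos {p : ℝ} (hp : 0 < p) (hp1 : p < 1) (ρ : ℝ) {g : ℝ} (hg : 0 < g) :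
    0 < (ρ - p * Real.cosh g) ^ 2 + p * (1 - p) * (Real.sinh g) ^ 2 := by
  have h1 : 0 < Real.sinh g := Real.sinh_pos_iff.2 hg
  have h2 : 0 < 1 - p := by linarith
  positivity

theorem RRr_pos {p : ℝ} (hp : 0 < p) (hp1 : p < 1) (ρ : ℝ) {g : ℝ} (hg : 0 < g) :
    0 < RRr p ρ g := Real.sqrt_pos.2 (RRr_arg_pos hp hp1 ρ hg)

theorem RRr_sq {p : ℝ} (hp : 0 < p) (hp1 : p < 1) (ρ g : ℝ) :
    RRr p ρ g ^ 2 = (ρ - p * Real.cosh g) ^ 2 + p * (1 - p) * (Real.sinh g) ^ 2 := by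
  unfold RRr
  rw [Real.sq_sqrt]
  have h2 : 0 < 1 - p := by linarith
  positivity

/-- `R^2 = (p - rho)^2 + p (C-1)(C+1-2 rho)` -/
theorem RRr_sq_A {p : ℝ} (hp : 0 < p) (hp1 : p < 1) (ρ g : ℝ) :
    RRr p ρ g ^ 2 = (p - ρ) ^ 2
      + p * (Real.cosh g - 1) * (Real.cosh g + 1 - 2 * ρ) := by
  rw [RRr_sq hp hp1, Real.sinh_sq]; ring

/-- `R^2 = (rho - p - (C-1))^2 + (1-p) (C-1)(2 rho - (C-1))` -/
theorem RRr_sq_B {p : ℝ} (hp : 0 < p) (hp1 : p < 1) (ρ g : ℝ) :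
    RRr p ρ g ^ 2 = (ρ - p - (Real.cosh g - 1)) ^ 2
      + (1 - p) * (Real.cosh g - 1) * (2 * ρ - (Real.cosh g - 1)) := by
  rw [RRr_sq hp hp1, Real.sinh_sq]; ring

/-- `R^2 = rho^2 + p C (C - 2 rho) - p (1-p)` -/
theorem RRr_sq_C {p : ℝ} (hp : 0 < p) (hp1 : p < 1) (ρ g : ℝ) :
    RRr p ρ g ^ 2 = ρ ^ 2 + p * Real.cosh g * (Real.cosh g - 2 * ρ) - p * (1 - p) := by
  rw [RRr_sq hp hp1, Real.sinh_sq]; ring

theorem one_lt_A {p : ℝ} (hp : 0 < p) (hp1 : p < 1) {ρ : ℝ} {g : ℝ} (hg : 0 < g) :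
    1 < (ρ + RRr p ρ g) / p := by
  rw [lt_div_iff₀ hp, one_mul]
  have hR := RRr_pos hp hp1 ρ hg
  have hC : 1 < Real.cosh g := Real.one_lt_cosh.2 hg.ne'
  by_cases h : p ≤ ρ
  · linarith
  · push Not at h
    have h1 : (p - ρ) ^ 2 < RRr p ρ g ^ 2 := by
      rw [RRr_sq_A hp hp1]
      have : 0 < p * (Real.cosh g - 1) * (Real.cosh g + 1 - 2 * ρ) :=
        mul_pos (mul_pos hp (by linarith)) (by linarith)
      linarith
    have h2 := abs_lt_of_sq_lt_sq h1 hR.le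
    have h3 := (abs_lt.1 h2).2
    linarith

theorem one_lt_B {p : ℝ} (hp : 0 < p) (hp1 : p < 1) {ρ : ℝ} {g : ℝ} (hg : 0 < g) :
    1 < (RRr p ρ g + Real.cosh g - ρ) / (1 - p) := by
  have h1p : 0 < 1 - p := by linarith
  rw [lt_div_iff₀ h1p, one_mul]
  have hR := RRr_pos hp hp1 ρ hg
  have hC : 1 < Real.cosh g := Real.one_lt_cosh.2 hg.ne'
  by_cases h : ρ - p ≤ Real.cosh g - 1
  · linarith
  · push Not at h
    have h1 : (ρ - p - (Real.cosh g - 1)) ^ 2 < RRr p ρ g ^ 2 := by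
      rw [RRr_sq_B hp hp1]
      have : 0 < (1 - p) * (Real.cosh g - 1) * (2 * ρ - (Real.cosh g - 1)) :=
        mul_pos (mul_pos h1p (by linarith)) (by linarith)
      linarith
    have h2 := abs_lt_of_sq_lt_sq h1 hR.le
    have h3 := (abs_lt.1 h2).2
    linarith

theorem FAr_pos {p : ℝ} (hp : 0 < p) (hp1 : p < 1) {ρ : ℝ} {g : ℝ} (hg : 0 < g) :
    0 < FAr p ρ g := Real.arcosh_pos (one_lt_A hp hp1 hg)

theorem FBr_pos {p : ℝ} (hp : 0 < p) (hp1 : p < 1) {ρ : ℝ} {g : ℝ} (hg : 0 < g) :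
    0 < FBr p ρ g := Real.arcosh_pos (one_lt_B hp hp1 hg)

theorem cosh_FAr {p : ℝ} (hp : 0 < p) (hp1 : p < 1) {ρ : ℝ} {g : ℝ} (hg : 0 < g) :
    Real.cosh (FAr p ρ g) = (ρ + RRr p ρ g) / p := Real.cosh_arcosh (one_lt_A hp hp1 hg).le

theorem cosh_FBr {p : ℝ} (hp : 0 < p) (hp1 : p < 1) {ρ : ℝ} {g : ℝ} (hg : 0 < g) :
    Real.cosh (FBr p ρ g) = (RRr p ρ g + Real.cosh g - ρ) / (1 - p) :=
  Real.cosh_arcosh (one_lt_B hp hp1 hg).le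

/-! ### smoothness -/

theorem contDiffAt_RRr {n : WithTop ℕ∞} {p : ℝ} (hp : 0 < p) (hp1 : p < 1) (x : ℝ × ℝ)
    (hg : 0 < x.2) : ContDiffAt ℝ n (fun x : ℝ × ℝ => RRr p x.1 x.2) x := by
  unfold RRr
  refine ContDiffAt.sqrt ?_ (RRr_arg_pos hp hp1 x.1 hg).ne'
  have h1 : ContDiffAt ℝ n (fun x : ℝ × ℝ => Real.cosh x.2) x :=
    (Real.contDiff_cosh.comp contDiff_snd).contDiffAt
  have h2 : ContDiffAt ℝ n (fun x : ℝ × ℝ => Real.sinh x.2) x :=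
    (Real.contDiff_sinh.comp contDiff_snd).contDiffAt
  exact ((contDiffAt_fst.sub (contDiffAt_const.mul h1)).pow 2).add
    (contDiffAt_const.mul (h2.pow 2))

theorem contDiffAt_FAr {n : WithTop ℕ∞} {p : ℝ} (hp : 0 < p) (hp1 : p < 1) (x : ℝ × ℝ)
    (hg : 0 < x.2) : ContDiffAt ℝ n (fun x : ℝ × ℝ => FAr p x.1 x.2) x := by
  have h2 : ContDiffAt ℝ n (fun x : ℝ × ℝ => (x.1 + RRr p x.1 x.2) / p) x :=
    (contDiffAt_fst.add (contDiffAt_RRr hp hp1 x hg)).div_const p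
  have h3 : ContDiffAt ℝ n Real.arcosh ((x.1 + RRr p x.1 x.2) / p) :=
    Real.contDiffAt_arcosh (one_lt_A hp hp1 hg)
  exact ContDiffAt.comp (g := Real.arcosh) x h3 h2

theorem contDiffAt_FBr {n : WithTop ℕ∞} {p : ℝ} (hp : 0 < p) (hp1 : p < 1) (x : ℝ × ℝ)
    (hg : 0 < x.2) : ContDiffAt ℝ n (fun x : ℝ × ℝ => FBr p x.1 x.2) x := by
  have h1 : ContDiffAt ℝ n (fun x : ℝ × ℝ => Real.cosh x.2) x :=
    (Real.contDiff_cosh.comp contDiff_snd).contDiffAt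
  have h2 : ContDiffAt ℝ n (fun x : ℝ × ℝ => (RRr p x.1 x.2 + Real.cosh x.2 - x.1) / (1 - p)) x :=
    (((contDiffAt_RRr hp hp1 x hg).add h1).sub contDiffAt_fst).div_const (1 - p)
  have h3 : ContDiffAt ℝ n Real.arcosh ((RRr p x.1 x.2 + Real.cosh x.2 - x.1) / (1 - p)) :=
    Real.contDiffAt_arcosh (one_lt_B hp hp1 hg)
  exact ContDiffAt.comp (g := Real.arcosh) x h3 h2

theorem cosh_le {x y : ℝ} (hx : 0 ≤ x) (hy : 0 ≤ y) (h : Real.cosh x ≤ Real.cosh y) : x ≤ y := by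
  rw [Real.cosh_le_cosh, abs_of_nonneg hx, abs_of_nonneg hy] at h
  exact h

/-! ### (T3) smallness -/

theorem RRr_le_A {p : ℝ} (hp : 0 < p) (hp1 : p < 1) {ρ : ℝ} (h0 : 0 ≤ ρ) (h1 : ρ ≤ p) {g : ℝ}
    (hg : 0 < g) : RRr p ρ g ≤ (p - ρ) + Real.sqrt p * Real.sinh g := by
  have hS : 0 < Real.sinh g := Real.sinh_pos_iff.2 hg
  have hC : 1 < Real.cosh g := Real.one_lt_cosh.2 hg.ne'
  have hq : 0 ≤ Real.sqrt p := Real.sqrt_nonneg p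
  have hq2 : Real.sqrt p ^ 2 = p := Real.sq_sqrt hp.le
  have h3 : 0 ≤ (p - ρ) + Real.sqrt p * Real.sinh g := by
    have := mul_nonneg hq hS.le
    linarith
  refine abs_le_of_sq_le_sq' ?_ h3 |>.2
  rw [RRr_sq_A hp hp1]
  have e1 : ((p - ρ) + Real.sqrt p * Real.sinh g) ^ 2
      = (p - ρ) ^ 2 + p * Real.sinh g ^ 2 + 2 * (p - ρ) * (Real.sqrt p * Real.sinh g) := by
    have : (Real.sqrt p * Real.sinh g) ^ 2 = p * Real.sinh g ^ 2 := by rw [mul_pow, hq2]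
    nlinarith [this]
  rw [e1, Real.sinh_sq]
  have h4 : 0 ≤ 2 * (p - ρ) * (Real.sqrt p * Real.sinh g) :=
    mul_nonneg (by linarith) (mul_nonneg hq hS.le)
  have h5 : 0 ≤ p * (Real.cosh g - 1) * (2 * ρ) :=
    mul_nonneg (mul_nonneg hp.le (by linarith)) (by linarith)
  nlinarith [h4, h5]

theorem FAr_le_of {p : ℝ} (hp : 0 < p) (hp1 : p < 1) {ρ : ℝ} (h0 : 0 ≤ ρ) (h1 : ρ ≤ p) {g : ℝ}
    (hg : 0 < g) {ε : ℝ} (hε : 0 ≤ ε) (h : 1 + Real.sinh g / Real.sqrt p ≤ Real.cosh ε) :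
    FAr p ρ g ≤ ε := by
  have hq : 0 < Real.sqrt p := Real.sqrt_pos.2 hp
  have hq2 : Real.sqrt p * Real.sqrt p = p := Real.mul_self_sqrt hp.le
  refine cosh_le (FAr_pos hp hp1 hg).le hε ?_
  rw [cosh_FAr hp hp1 hg]
  refine le_trans ?_ h
  rw [div_le_iff₀ hp]
  have h2 := RRr_le_A hp hp1 h0 h1 hg
  have h3 : (1 + Real.sinh g / Real.sqrt p) * p = p + Real.sqrt p * Real.sinh g := by
    nth_rewrite 2 [← hq2]
    field_simp
    nlinarith [hq2]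
  rw [h3]
  linarith

theorem RRr_le_B {p : ℝ} (hp : 0 < p) (hp1 : p < 1) {ρ : ℝ} (h1 : ρ ≤ 1) {g : ℝ}
    (hg : 0 < g) : RRr p ρ g ≤ |ρ - p - (Real.cosh g - 1)|
      + Real.sqrt (2 * (1 - p) * (Real.cosh g - 1)) := by
  have hC : 1 < Real.cosh g := Real.one_lt_cosh.2 hg.ne'
  have h1p : 0 < 1 - p := by linarith
  have hw : 0 ≤ 2 * (1 - p) * (Real.cosh g - 1) :=
    mul_nonneg (by linarith) (by linarith)
  set w := Real.sqrt (2 * (1 - p) * (Real.cosh g - 1)) with hwd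
  have hw0 : 0 ≤ w := Real.sqrt_nonneg _
  have hw2 : w ^ 2 = 2 * (1 - p) * (Real.cosh g - 1) := Real.sq_sqrt hw
  have h3 : 0 ≤ |ρ - p - (Real.cosh g - 1)| + w := by positivity
  refine abs_le_of_sq_le_sq' ?_ h3 |>.2
  rw [RRr_sq_B hp hp1]
  have e1 : (|ρ - p - (Real.cosh g - 1)| + w) ^ 2 = (ρ - p - (Real.cosh g - 1)) ^ 2
      + w ^ 2 + 2 * |ρ - p - (Real.cosh g - 1)| * w := by
    rw [add_sq, sq_abs]; ring
  rw [e1, hw2]
  have h4 : 0 ≤ 2 * |ρ - p - (Real.cosh g - 1)| * w := by positivity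
  have h5 : 0 ≤ (1 - p) * (Real.cosh g - 1) * (2 * (1 - ρ) + (Real.cosh g - 1)) :=
    mul_nonneg (mul_nonneg h1p.le (by linarith)) (by linarith)
  nlinarith [h4, h5]

theorem FBr_le_of {p : ℝ} (hp : 0 < p) (hp1 : p < 1) {ρ : ℝ} (h0 : p ≤ ρ) (h1 : ρ ≤ 1) {g : ℝ}
    (hg : 0 < g) {ε : ℝ} (hε : 0 ≤ ε)
    (h : 1 + (2 * (Real.cosh g - 1) + Real.sqrt (2 * (1 - p) * (Real.cosh g - 1))) / (1 - p)
      ≤ Real.cosh ε) :
    FBr p ρ g ≤ ε := by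
  have h1p : 0 < 1 - p := by linarith
  have hC : 1 < Real.cosh g := Real.one_lt_cosh.2 hg.ne'
  refine cosh_le (FBr_pos hp hp1 hg).le hε ?_
  rw [cosh_FBr hp hp1 hg]
  refine le_trans ?_ h
  rw [div_le_iff₀ h1p, add_mul, one_mul, div_mul_cancel₀ _ h1p.ne']
  have h2 := RRr_le_B hp hp1 h1 hg
  rcases abs_cases (ρ - p - (Real.cosh g - 1)) with ⟨h3, h4⟩ | ⟨h3, h4⟩ <;> rw [h3] at h2 <;>
    linarith

/-! ### (T4) the derivative in `rho` -/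

theorem hasDerivAt_RRr_rho {p : ℝ} (hp : 0 < p) (hp1 : p < 1) (ρ : ℝ) {g : ℝ} (hg : 0 < g) :
    HasDerivAt (fun ρ => RRr p ρ g) ((ρ - p * Real.cosh g) / RRr p ρ g) ρ := by
  have h1 : HasDerivAt (fun ρ : ℝ => (ρ - p * Real.cosh g) ^ 2
      + p * (1 - p) * (Real.sinh g) ^ 2) (2 * (ρ - p * Real.cosh g)) ρ := by
    have := (((hasDerivAt_id ρ).sub_const (p * Real.cosh g)).pow 2).add_const
      (p * (1 - p) * (Real.sinh g) ^ 2)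
    simpa using this
  have h2 : HasDerivAt (fun ρ => RRr p ρ g)
      (2 * (ρ - p * Real.cosh g) / (2 * RRr p ρ g)) ρ :=
    h1.sqrt (RRr_arg_pos hp hp1 ρ hg).ne'
  refine h2.congr_deriv ?_
  have hR := RRr_pos hp hp1 ρ hg
  field_simp

theorem sinh_of_cosh {x y : ℝ} (hx : 0 ≤ x) (h : Real.cosh x = y) :
    Real.sqrt (y ^ 2 - 1) = Real.sinh x := by
  have h1 : 0 ≤ Real.sinh x := Real.sinh_nonneg_iff.2 hx
  rw [← h, show Real.cosh x ^ 2 - 1 = Real.sinh x ^ 2 by rw [Real.sinh_sq], Real.sqrt_sq h1]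

theorem hasDerivAt_FAr_rho {p : ℝ} (hp : 0 < p) (hp1 : p < 1) (ρ : ℝ) {g : ℝ} (hg : 0 < g) :
    HasDerivAt (fun ρ => FAr p ρ g)
      ((RRr p ρ g + ρ - p * Real.cosh g) / (p * RRr p ρ g * Real.sinh (FAr p ρ g))) ρ := by
  have h1 : HasDerivAt (fun ρ => (ρ + RRr p ρ g) / p)
      ((1 + (ρ - p * Real.cosh g) / RRr p ρ g) / p) ρ :=
    ((hasDerivAt_id ρ).add (hasDerivAt_RRr_rho hp hp1 ρ hg)).div_const p
  have h2 : HasDerivAt (fun ρ => FAr p ρ g)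
      ((Real.sqrt (((ρ + RRr p ρ g) / p) ^ 2 - 1))⁻¹
        * ((1 + (ρ - p * Real.cosh g) / RRr p ρ g) / p)) ρ :=
    (Real.hasDerivAt_arcosh (one_lt_A hp hp1 (ρ := ρ) hg)).comp ρ h1
  refine h2.congr_deriv ?_
  have hR := RRr_pos hp hp1 ρ hg
  have hT : 0 < Real.sinh (FAr p ρ g) := Real.sinh_pos_iff.2 (FAr_pos hp hp1 hg)
  rw [sinh_of_cosh (FAr_pos hp hp1 hg).le (cosh_FAr hp hp1 hg)]
  field_simp
  ring

theorem hasDerivAt_FBr_rho {p : ℝ} (hp : 0 < p) (hp1 : p < 1) (ρ : ℝ) {g : ℝ} (hg : 0 < g) :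
    HasDerivAt (fun ρ => FBr p ρ g)
      (-((RRr p ρ g - ρ + p * Real.cosh g) / ((1 - p) * RRr p ρ g * Real.sinh (FBr p ρ g)))) ρ := by
  have h1p : 0 < 1 - p := by linarith
  have h1 : HasDerivAt (fun ρ => (RRr p ρ g + Real.cosh g - ρ) / (1 - p))
      (((ρ - p * Real.cosh g) / RRr p ρ g - 1) / (1 - p)) ρ :=
    (((hasDerivAt_RRr_rho hp hp1 ρ hg).add_const (Real.cosh g)).sub (hasDerivAt_id ρ)).div_const
      (1 - p)
  have h2 : HasDerivAt (fun ρ => FBr p ρ g)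
      ((Real.sqrt (((RRr p ρ g + Real.cosh g - ρ) / (1 - p)) ^ 2 - 1))⁻¹
        * (((ρ - p * Real.cosh g) / RRr p ρ g - 1) / (1 - p))) ρ :=
    (Real.hasDerivAt_arcosh (one_lt_B hp hp1 (ρ := ρ) hg)).comp ρ h1
  refine h2.congr_deriv ?_
  have hR := RRr_pos hp hp1 ρ hg
  have hT : 0 < Real.sinh (FBr p ρ g) := Real.sinh_pos_iff.2 (FBr_pos hp hp1 hg)
  rw [sinh_of_cosh (FBr_pos hp hp1 hg).le (cosh_FBr hp hp1 hg)]
  field_simp
  ring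

end Pool.Agent.H70.EH
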