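import Mathlib
import Pool.Agent.H70.EH.TA

/-!
# The test function: bounds at infinity and small gradient near the inner set
-/

namespace Pool.Agent.H70.EH

open Real Set Filter Topology

/-- a smooth convex profile at height `2 η` -/
structure Prof (η : ℝ) (B : ℝ → ℝ) : Prop where
  pos : 0 < η
  c2 : ContDiff ℝ 2 B
  low : ∀ t, t ≤ η → B t = 2 * η
  high : ∀ t, 3 * η ≤ t → B t = t
  ge : ∀ t, max t (2 * η) ≤ B t

theorem Prof.ge_two {η : ℝ} {B : ℝ → ℝ} (h : Prof η B) (t : ℝ) : 2 * η ≤ B t :=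
  (le_max_right _ _).trans (h.ge t)

theorem Prof.ge_self {η : ℝ} {B : ℝ → ℝ} (h : Prof η B) (t : ℝ) : t ≤ B t :=
  (le_max_left _ _).trans (h.ge t)

theorem Prof.pos' {η : ℝ} {B : ℝ → ℝ} (h : Prof η B) (t : ℝ) : 0 < B t := by
  have := h.ge_two t
  have := h.pos
  linarith

/-! ### (T4) -/

theorem abs_le_RRr {p : ℝ} (hp : 0 < p) (hp1 : p < 1) (ρ : ℝ) (g : ℝ) :
    |ρ - p * Real.cosh g| ≤ RRr p ρ g := by
  unfold RRr
  apply Real.abs_le_sqrt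
  have h2 : 0 < 1 - p := by linarith
  have : 0 ≤ p * (1 - p) * (Real.sinh g) ^ 2 := by positivity
  linarith

theorem YZ {p : ℝ} (hp : 0 < p) (hp1 : p < 1) (ρ g : ℝ) :
    (RRr p ρ g + ρ - p * Real.cosh g) * (RRr p ρ g - ρ + p * Real.cosh g)
      = p * (1 - p) * Real.sinh g ^ 2 := by
  have := RRr_sq hp hp1 ρ g
  nlinarith [this]

theorem g_le_FAr {p : ℝ} (hp : 0 < p) (hp1 : p < 1) {ρ : ℝ} {g : ℝ} (hg : 0 < g) :
    g ≤ FAr p ρ g := by
  refine cosh_le hg.le (FAr_pos hp hp1 hg).le ?_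
  rw [cosh_FAr hp hp1 hg, le_div_iff₀ hp]
  have := (abs_le.1 (abs_le_RRr hp hp1 ρ g)).1
  linarith

theorem g_le_FBr {p : ℝ} (hp : 0 < p) (hp1 : p < 1) {ρ : ℝ} {g : ℝ} (hg : 0 < g) :
    g ≤ FBr p ρ g := by
  refine cosh_le hg.le (FBr_pos hp hp1 hg).le ?_
  rw [cosh_FBr hp hp1 hg, le_div_iff₀ (by linarith)]
  have := (abs_le.1 (abs_le_RRr hp hp1 ρ g)).2
  linarith

theorem deriv_A_bound {p : ℝ} (hp : 0 < p) (hp1 : p < 1) {ρ c : ℝ} (hc : 0 < c)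
    (hρ : ρ ≤ p - c) {g : ℝ} (hg : 0 < g) :
    |(RRr p ρ g + ρ - p * Real.cosh g) / (p * RRr p ρ g * Real.sinh (FAr p ρ g))|
      ≤ Real.sinh g / c ^ 2 := by
  have hS : 0 < Real.sinh g := Real.sinh_pos_iff.2 hg
  have hC : 1 < Real.cosh g := Real.one_lt_cosh.2 hg.ne'
  have hR := RRr_pos hp hp1 ρ hg
  have h1p : 0 < 1 - p := by linarith
  have hpC : p ≤ p * Real.cosh g := by nlinarith
  have hRc : c ≤ RRr p ρ g := by
    have := (abs_le.1 (abs_le_RRr hp hp1 ρ g)).1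
    linarith
  have hT : Real.sinh g ≤ Real.sinh (FAr p ρ g) := Real.sinh_le_sinh.2 (g_le_FAr hp hp1 hg)
  have hZ : c ≤ RRr p ρ g - ρ + p * Real.cosh g := by linarith
  have hYZ := YZ hp hp1 ρ g
  set Y := RRr p ρ g + ρ - p * Real.cosh g with hY
  set Z := RRr p ρ g - ρ + p * Real.cosh g with hZd
  have hY0 : 0 ≤ Y := by
    have := (abs_le.1 (abs_le_RRr hp hp1 ρ g)).1
    rw [hY]; linarith
  have hYc : Y * c ≤ p * (1 - p) * Real.sinh g ^ 2 := by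
    rw [← hYZ]; exact mul_le_mul_of_nonneg_left hZ hY0
  have hT0 : 0 < Real.sinh (FAr p ρ g) := lt_of_lt_of_le hS hT
  rw [abs_of_nonneg (by positivity), div_le_div_iff₀ (by positivity) (by positivity)]
  have h5 : p * c * Real.sinh g ≤ p * RRr p ρ g * Real.sinh (FAr p ρ g) := by
    apply mul_le_mul (mul_le_mul_of_nonneg_left hRc hp.le) hT hS.le (by positivity)
  calc Y * c ^ 2 = (Y * c) * c := by ring
    _ ≤ (p * (1 - p) * Real.sinh g ^ 2) * c := mul_le_mul_of_nonneg_right hYc hc.le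
    _ ≤ (p * 1 * Real.sinh g ^ 2) * c := by
        apply mul_le_mul_of_nonneg_right _ hc.le
        apply mul_le_mul_of_nonneg_right _ (sq_nonneg _)
        apply mul_le_mul_of_nonneg_left _ hp.le
        linarith
    _ = Real.sinh g * (p * c * Real.sinh g) := by ring
    _ ≤ Real.sinh g * (p * RRr p ρ g * Real.sinh (FAr p ρ g)) :=
        mul_le_mul_of_nonneg_left h5 hS.le

theorem deriv_B_bound {p : ℝ} (hp : 0 < p) (hp1 : p < 1) {ρ c : ℝ} (hc : 0 < c)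
    (hρ : p + c ≤ ρ) {g : ℝ} (hg : 0 < g) (hgc : Real.cosh g - 1 ≤ c / 2) :
    |(-((RRr p ρ g - ρ + p * Real.cosh g) / ((1 - p) * RRr p ρ g * Real.sinh (FBr p ρ g))))|
      ≤ 4 * Real.sinh g / c ^ 2 := by
  have hS : 0 < Real.sinh g := Real.sinh_pos_iff.2 hg
  have hC : 1 < Real.cosh g := Real.one_lt_cosh.2 hg.ne'
  have hR := RRr_pos hp hp1 ρ hg
  have h1p : 0 < 1 - p := by linarith
  have hpC : p * (Real.cosh g - 1) ≤ c / 2 := by nlinarith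
  have hRc : c / 2 ≤ RRr p ρ g := by
    have := (abs_le.1 (abs_le_RRr hp hp1 ρ g)).2
    linarith
  have hT : Real.sinh g ≤ Real.sinh (FBr p ρ g) := Real.sinh_le_sinh.2 (g_le_FBr hp hp1 hg)
  have hYc : c / 2 ≤ RRr p ρ g + ρ - p * Real.cosh g := by linarith
  have hYZ := YZ hp hp1 ρ g
  set Y := RRr p ρ g + ρ - p * Real.cosh g with hY
  set Z := RRr p ρ g - ρ + p * Real.cosh g with hZd
  have hZ0 : 0 ≤ Z := by
    have := (abs_le.1 (abs_le_RRr hp hp1 ρ g)).2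
    rw [hZd]; linarith
  have hZc : Z * (c / 2) ≤ p * (1 - p) * Real.sinh g ^ 2 := by
    rw [← hYZ, mul_comm Y Z]; exact mul_le_mul_of_nonneg_left hYc hZ0
  have hT0 : 0 < Real.sinh (FBr p ρ g) := lt_of_lt_of_le hS hT
  rw [abs_neg, abs_of_nonneg (by positivity), div_le_div_iff₀ (by positivity) (by positivity)]
  have h5 : (1 - p) * (c / 2) * Real.sinh g ≤ (1 - p) * RRr p ρ g * Real.sinh (FBr p ρ g) := by
    apply mul_le_mul (mul_le_mul_of_nonneg_left hRc h1p.le) hT hS.le (by positivity)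
  calc Z * c ^ 2 = 2 * ((Z * (c / 2)) * c) := by ring
    _ ≤ 2 * ((p * (1 - p) * Real.sinh g ^ 2) * c) := by
        apply mul_le_mul_of_nonneg_left _ (by norm_num)
        exact mul_le_mul_of_nonneg_right hZc hc.le
    _ ≤ 2 * ((1 * (1 - p) * Real.sinh g ^ 2) * c) := by
        apply mul_le_mul_of_nonneg_left _ (by norm_num)
        apply mul_le_mul_of_nonneg_right _ hc.le
        apply mul_le_mul_of_nonneg_right _ (sq_nonneg _)
        apply mul_le_mul_of_nonneg_right _ h1p.le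
        exact hp1.le
    _ = 4 * Real.sinh g * ((1 - p) * (c / 2) * Real.sinh g) := by ring
    _ ≤ 4 * Real.sinh g * ((1 - p) * RRr p ρ g * Real.sinh (FBr p ρ g)) :=
        mul_le_mul_of_nonneg_left h5 (by positivity)

theorem FAr_lip {p : ℝ} (hp : 0 < p) (hp1 : p < 1) {c : ℝ} (hc : 0 < c) {g : ℝ} (hg : 0 < g)
    {ρ ρ' : ℝ} (h : ρ ≤ p - c) (h' : ρ' ≤ p - c) :
    |FAr p ρ g - FAr p ρ' g| ≤ Real.sinh g / c ^ 2 * |ρ - ρ'| := by
  have := Convex.norm_image_sub_le_of_norm_hasDerivWithin_le (s := Iic (p - c))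
    (f := fun ρ => FAr p ρ g) (C := Real.sinh g / c ^ 2)
    (fun x _ => (hasDerivAt_FAr_rho hp hp1 x hg).hasDerivWithinAt)
    (fun x hx => by rw [Real.norm_eq_abs]; exact deriv_A_bound hp hp1 hc hx hg)
    (convex_Iic _) h' h
  simpa [Real.norm_eq_abs] using this

theorem FBr_lip {p : ℝ} (hp : 0 < p) (hp1 : p < 1) {c : ℝ} (hc : 0 < c) {g : ℝ} (hg : 0 < g)
    (hgc : Real.cosh g - 1 ≤ c / 2)
    {ρ ρ' : ℝ} (h : p + c ≤ ρ) (h' : p + c ≤ ρ') :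
    |FBr p ρ g - FBr p ρ' g| ≤ 4 * Real.sinh g / c ^ 2 * |ρ - ρ'| := by
  have := Convex.norm_image_sub_le_of_norm_hasDerivWithin_le (s := Ici (p + c))
    (f := fun ρ => FBr p ρ g) (C := 4 * Real.sinh g / c ^ 2)
    (fun x _ => (hasDerivAt_FBr_rho hp hp1 x hg).hasDerivWithinAt)
    (fun x hx => by rw [Real.norm_eq_abs]; exact deriv_B_bound hp hp1 hc hx hg hgc)
    (convex_Ici _) h' h
  simpa [Real.norm_eq_abs] using this

/-- if `w ↦ h (‖w‖/4)` with `h` `K`-Lipschitz on `s`, and near `z` the function `u` is of this form,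
then `‖fderiv u z‖ ≤ K` -/
theorem fderiv_le_of_rad {u : ℂ → ℝ} {h : ℝ → ℝ} {K : ℝ} (hK : 0 ≤ K) {z : ℂ}
    (h1 : ∀ᶠ w in 𝓝 z, u w = h (‖w‖ / 4))
    {s : Set ℝ} (hs : ∀ᶠ w in 𝓝 z, ‖w‖ / 4 ∈ s)
    (hl : ∀ ρ ∈ s, ∀ ρ' ∈ s, |h ρ - h ρ'| ≤ K * |ρ - ρ'|) :
    ‖fderiv ℝ u z‖ ≤ K := by
  have hn : {w | u w = h (‖w‖ / 4) ∧ ‖w‖ / 4 ∈ s} ∈ 𝓝 z := h1.and hs
  have hlip : LipschitzOnWith (K.toNNReal) u {w | u w = h (‖w‖ / 4) ∧ ‖w‖ / 4 ∈ s} := by
    refine LipschitzOnWith.of_dist_le_mul fun w hw w' hw' => ?_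
    rw [Real.dist_eq, hw.1, hw'.1, Real.coe_toNNReal _ hK]
    refine (hl _ hw.2 _ hw'.2).trans ?_
    apply mul_le_mul_of_nonneg_left _ hK
    have h3 : |‖w‖ - ‖w'‖| ≤ ‖w - w'‖ := abs_norm_sub_norm_le w w'
    rw [dist_eq_norm, ← sub_div, abs_div, abs_of_pos (show (0 : ℝ) < 4 by norm_num)]
    have h4 := norm_nonneg (w - w')
    have h5 := abs_nonneg (‖w‖ - ‖w'‖)
    linarith
  have h3 := norm_fderiv_le_of_lipschitzOn ℝ hn hlip
  rwa [Real.coe_toNNReal _ hK] at h3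

end Pool.Agent.H70.EH
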