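import Mathlib
import Pool.Agent.H70.EH.TB

/-!
# The test function: the output properties (T0) - (T4)
-/

namespace Pool.Agent.H70.EH

open Real Set Filter Topology

theorem eventually_small {f : ℝ → ℝ} (hf : Continuous f) {a : ℝ} (h0 : f 0 < a) :
    ∃ η₀ > 0, ∀ η, 0 < η → η < η₀ → f (2 * η) ≤ a := by
  have h1 : Continuous fun η => f (2 * η) := hf.comp (continuous_const.mul continuous_id)
  have h2 : ∀ᶠ η in 𝓝 (0 : ℝ), f (2 * η) < a :=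
    h1.continuousAt.eventually_lt continuousAt_const (by simpa using h0)
  obtain ⟨δ, hδ, h3⟩ := Metric.eventually_nhds_iff.1 h2
  refine ⟨δ, hδ, fun η h h' => (h3 ?_).le⟩
  rw [Real.dist_eq, sub_zero, abs_of_pos h]; exact h'

/-- (T3) for A -/
theorem T3A {p : ℝ} (hp : 0 < p) (hp1 : p < 1) {ε : ℝ} (hε : 0 < ε) :
    ∃ η₀ > 0, ∀ η, η < η₀ → ∀ B, Prof η B → ∀ t, t ≤ η → ∀ ρ, 0 ≤ ρ → ρ ≤ p →
      0 ≤ FAr p ρ (B t) ∧ FAr p ρ (B t) ≤ ε := by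
  obtain ⟨η₀, h0, h1⟩ := eventually_small (f := fun g => 1 + Real.sinh g / Real.sqrt p)
    (by fun_prop) (a := Real.cosh ε) (by simpa using Real.one_lt_cosh.2 hε.ne')
  refine ⟨η₀, h0, fun η hη B hB t ht ρ hρ hρp => ?_⟩
  have hB2 := hB.low t ht
  have h2 : 0 < 2 * η := by have := hB.pos; linarith
  rw [hB2]
  exact ⟨(FAr_pos hp hp1 h2).le, FAr_le_of hp hp1 hρ hρp h2 hε.le (h1 η hB.pos hη)⟩

/-- (T3) for B -/
theorem T3B {p : ℝ} (hp : 0 < p) (hp1 : p < 1) {ε : ℝ} (hε : 0 < ε) :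
    ∃ η₀ > 0, ∀ η, η < η₀ → ∀ B, Prof η B → ∀ t, t ≤ η → ∀ ρ, p ≤ ρ → ρ ≤ 1 →
      0 ≤ FBr p ρ (B t) ∧ FBr p ρ (B t) ≤ ε := by
  obtain ⟨η₀, h0, h1⟩ := eventually_small (f := fun g => 1 + (2 * (Real.cosh g - 1)
      + Real.sqrt (2 * (1 - p) * (Real.cosh g - 1))) / (1 - p))
    (by fun_prop) (a := Real.cosh ε) (by simpa using Real.one_lt_cosh.2 hε.ne')
  refine ⟨η₀, h0, fun η hη B hB t ht ρ hρ hρp => ?_⟩
  have hB2 := hB.low t ht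
  have h2 : 0 < 2 * η := by have := hB.pos; linarith
  rw [hB2]
  exact ⟨(FBr_pos hp hp1 h2).le, FBr_le_of hp hp1 hρ hρp h2 hε.le (h1 η hB.pos hη)⟩

/-- (T4) for A: the gradient is small where `x < η` inside the circle -/
theorem T4A {p : ℝ} (hp : 0 < p) (hp1 : p < 1) {c ε : ℝ} (hc : 0 < c) (hε : 0 < ε) :
    ∃ η₀ > 0, ∀ η, η < η₀ → ∀ B, Prof η B → ∀ (x : ℂ → ℝ) (z : ℂ), (∀ᶠ w in 𝓝 z, x w ≤ η) →
      ‖z‖ / 4 ≤ p - c → ‖fderiv ℝ (fun w => FAr p (‖w‖ / 4) (B (x w))) z‖ ≤ ε := by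
  obtain ⟨η₀, h0, h1⟩ := eventually_small (f := fun g => Real.sinh g / (c / 2) ^ 2)
    (by fun_prop) (a := ε) (by simpa using hε)
  refine ⟨η₀, h0, fun η hη B hB x z hx hz => ?_⟩
  have h2 : 0 < 2 * η := by have := hB.pos; linarith
  refine fderiv_le_of_rad hε.le (h := fun ρ => FAr p ρ (2 * η)) (s := Iic (p - c / 2)) ?_ ?_ ?_
  · filter_upwards [hx] with w hw
    rw [hB.low _ hw]
  · have : Tendsto (fun w : ℂ => ‖w‖ / 4) (𝓝 z) (𝓝 (‖z‖ / 4)) :=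
      (continuous_norm.div_const 4).tendsto z
    filter_upwards [this.eventually_lt_const (show ‖z‖ / 4 < p - c / 2 by linarith)] with w hw
    exact hw.le
  · intro ρ hρ ρ' hρ'
    refine (FAr_lip hp hp1 (half_pos hc) h2 hρ hρ').trans ?_
    exact mul_le_mul_of_nonneg_right (h1 η hB.pos hη) (abs_nonneg _)

/-- (T4) for B: the gradient is small where `x < η` outside the circle -/
theorem T4B {p : ℝ} (hp : 0 < p) (hp1 : p < 1) {c ε : ℝ} (hc : 0 < c) (hε : 0 < ε) :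
    ∃ η₀ > 0, ∀ η, η < η₀ → ∀ B, Prof η B → ∀ (x : ℂ → ℝ) (z : ℂ), (∀ᶠ w in 𝓝 z, x w ≤ η) →
      p + c ≤ ‖z‖ / 4 → ‖fderiv ℝ (fun w => FBr p (‖w‖ / 4) (B (x w))) z‖ ≤ ε := by
  obtain ⟨η₀, h0, h1⟩ := eventually_small (f := fun g => 4 * Real.sinh g / (c / 2) ^ 2)
    (by fun_prop) (a := ε) (by simpa using hε)
  obtain ⟨η₁, h0', h1'⟩ := eventually_small (f := fun g => Real.cosh g - 1)
    (by fun_prop) (a := c / 2 / 2) (by simpa using hc)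
  refine ⟨min η₀ η₁, lt_min h0 h0', fun η hη B hB x z hx hz => ?_⟩
  have h2 : 0 < 2 * η := by have := hB.pos; linarith
  refine fderiv_le_of_rad hε.le (h := fun ρ => FBr p ρ (2 * η)) (s := Ici (p + c / 2)) ?_ ?_ ?_
  · filter_upwards [hx] with w hw
    rw [hB.low _ hw]
  · have : Tendsto (fun w : ℂ => ‖w‖ / 4) (𝓝 z) (𝓝 (‖z‖ / 4)) :=
      (continuous_norm.div_const 4).tendsto z
    filter_upwards [this.eventually_const_lt (show p + c / 2 < ‖z‖ / 4 by linarith)] with w hw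
    exact hw.le
  · intro ρ hρ ρ' hρ'
    refine (FBr_lip hp hp1 (half_pos hc) h2 (h1' η hB.pos (lt_of_lt_of_le hη (min_le_right _ _)))
      hρ hρ').trans ?_
    exact mul_le_mul_of_nonneg_right (h1 η hB.pos (lt_of_lt_of_le hη (min_le_left _ _)))
      (abs_nonneg _)

/-! ### (T2) -/

theorem RRr_ge {p : ℝ} (hp : 0 < p) (hp1 : p < 1) {μ ρ g : ℝ} (hμ : 0 < μ) (hμ1 : μ ≤ 1)
    (hρ : 1 / μ ≤ ρ) (hC : 2 * ρ * (1 - μ / 8) ≤ Real.cosh g) : (1 - μ) * ρ ≤ RRr p ρ g := by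
  have hρ0 : 0 < ρ := lt_of_lt_of_le (by positivity) hρ
  have hμρ : 1 ≤ μ * ρ := by
    rw [div_le_iff₀ hμ] at hρ; linarith
  have hR : 0 ≤ RRr p ρ g := Real.sqrt_nonneg _
  have h0 : 0 ≤ (1 - μ) * ρ := mul_nonneg (by linarith) hρ0.le
  have hCpos := Real.cosh_pos g
  have h1 : -(2 * ρ * (2 * ρ * (μ / 8))) ≤ Real.cosh g * (Real.cosh g - 2 * ρ) := by
    by_cases hc : 2 * ρ ≤ Real.cosh g
    · have : 0 ≤ Real.cosh g * (Real.cosh g - 2 * ρ) := mul_nonneg hCpos.le (by linarith)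
      have h2 : 0 ≤ 2 * ρ * (2 * ρ * (μ / 8)) := by positivity
      linarith
    · push Not at hc
      have h3 : 2 * ρ - Real.cosh g ≤ 2 * ρ * (μ / 8) := by linarith
      have h4 : Real.cosh g * (2 * ρ - Real.cosh g) ≤ 2 * ρ * (2 * ρ * (μ / 8)) :=
        mul_le_mul hc.le h3 (by linarith) (by linarith)
      linarith
  have h2 : ((1 - μ) * ρ) ^ 2 ≤ RRr p ρ g ^ 2 := by
    rw [RRr_sq_C hp hp1]
    have e1 : p * Real.cosh g * (Real.cosh g - 2 * ρ)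
        = p * (Real.cosh g * (Real.cosh g - 2 * ρ)) := by ring
    rw [e1]
    have h5 : -(2 * ρ * (2 * ρ * (μ / 8))) ≤ p * (Real.cosh g * (Real.cosh g - 2 * ρ)) := by
      have h6 := mul_le_mul_of_nonneg_left h1 hp.le
      have h7 : 0 ≤ (1 - p) * (2 * ρ * (2 * ρ * (μ / 8))) :=
        mul_nonneg (by linarith) (by positivity)
      nlinarith [h6, h7]
    have h8 : p * (1 - p) ≤ 1 / 4 := by nlinarith [sq_nonneg (p - 1 / 2)]
    have h9 : 1 ≤ μ * ρ ^ 2 := by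
      have h10 : 1 ≤ ρ := by nlinarith
      nlinarith
    nlinarith [h5, h8, h9, mul_pos hμ hρ0, sq_nonneg ρ, mul_nonneg (sub_nonneg.2 hμ1) (mul_nonneg hμ.le (sq_nonneg ρ))]
  exact (abs_le_of_sq_le_sq' h2 hR).2

theorem log_ge_of_cosh {F X : ℝ} (hF : 0 ≤ F) (hX : 0 < X) (h : X + 1 ≤ 2 * Real.cosh F) :
    Real.log X ≤ F := by
  rw [Real.log_le_iff_le_exp hX]
  have h1 : 2 * Real.cosh F = Real.exp F + Real.exp (-F) := by rw [Real.cosh_eq]; ring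
  have h2 : Real.exp (-F) ≤ 1 := Real.exp_le_one_iff.2 (by linarith)
  linarith

theorem FAr_ge {p : ℝ} (hp : 0 < p) (hp1 : p < 1) {μ ρ g : ℝ} (hg : 0 < g) (hμ : 0 < μ)
    (hμ1 : μ < 1) (hρ : 1 / μ ≤ ρ) (hC : 2 * ρ * (1 - μ / 8) ≤ Real.cosh g) :
    Real.log (4 * ρ) - Real.log p + Real.log (1 - μ) ≤ FAr p ρ g := by
  have hρ0 : 0 < ρ := lt_of_lt_of_le (by positivity) hρ
  have hμρ : 1 ≤ μ * ρ := by
    rw [div_le_iff₀ hμ] at hρ; linarith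
  have h1 := RRr_ge hp hp1 hμ hμ1.le hρ hC
  have hm : 0 < 1 - μ := by linarith
  rw [← Real.log_div (by positivity) hp.ne', ← Real.log_mul (by positivity) hm.ne']
  apply log_ge_of_cosh (FAr_pos hp hp1 hg).le (by positivity)
  rw [cosh_FAr hp hp1 hg]
  have e : 4 * ρ / p * (1 - μ) + 1 = (4 * ρ * (1 - μ) + p) / p := by field_simp
  have e2 : 2 * ((ρ + RRr p ρ g) / p) = (2 * (ρ + RRr p ρ g)) / p := by ring
  rw [e, e2]
  apply div_le_div_of_nonneg_right _ hp.le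
  nlinarith [h1, hμρ]

theorem FBr_ge {p : ℝ} (hp : 0 < p) (hp1 : p < 1) {μ ρ g : ℝ} (hg : 0 < g) (hμ : 0 < μ)
    (hμ1 : μ < 1) (hρ : 1 / μ ≤ ρ) (hC : 2 * ρ * (1 - μ / 8) ≤ Real.cosh g) :
    Real.log (4 * ρ) - Real.log (1 - p) + Real.log (1 - μ) ≤ FBr p ρ g := by
  have hρ0 : 0 < ρ := lt_of_lt_of_le (by positivity) hρ
  have hμρ : 1 ≤ μ * ρ := by
    rw [div_le_iff₀ hμ] at hρ; linarith
  have h1p : 0 < 1 - p := by linarith
  have h1 := RRr_ge hp hp1 hμ hμ1.le hρ hC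
  have hm : 0 < 1 - μ := by linarith
  rw [← Real.log_div (by positivity) h1p.ne', ← Real.log_mul (by positivity) hm.ne']
  apply log_ge_of_cosh (FBr_pos hp hp1 hg).le (by positivity)
  rw [cosh_FBr hp hp1 hg]
  have e : 4 * ρ / (1 - p) * (1 - μ) + 1 = (4 * ρ * (1 - μ) + (1 - p)) / (1 - p) := by field_simp
  have e2 : 2 * ((RRr p ρ g + Real.cosh g - ρ) / (1 - p))
      = (2 * (RRr p ρ g + Real.cosh g - ρ)) / (1 - p) := by ring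
  rw [e, e2]
  apply div_le_div_of_nonneg_right _ h1p.le
  nlinarith [h1, hμρ, hC]

/-- common part of (T2) -/
theorem T2_aux {ε : ℝ} (hε : 0 < ε) : ∃ μ, 0 < μ ∧ μ < 1 ∧ -ε ≤ Real.log (1 - μ) := by
  refine ⟨1 - Real.exp (-ε), ?_, ?_, ?_⟩
  · have := Real.exp_lt_one_iff.2 (show -ε < 0 by linarith)
    linarith
  · have := Real.exp_pos (-ε)
    linarith
  · rw [sub_sub_cancel, Real.log_exp]

theorem cosh_ge_of_log {z : ℂ} {μ g : ℝ} (hz : 0 < ‖z‖)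
    (hg : Real.log ‖z‖ - μ / 8 ≤ g) : 2 * (‖z‖ / 4) * (1 - μ / 8) ≤ Real.cosh g := by
  have h1 : Real.exp (Real.log ‖z‖ - μ / 8) ≤ Real.exp g := Real.exp_le_exp.2 hg
  rw [Real.exp_sub, Real.exp_log hz, div_eq_mul_inv, ← Real.exp_neg] at h1
  have h2 : 1 - μ / 8 ≤ Real.exp (-(μ / 8)) := by
    have := Real.add_one_le_exp (-(μ / 8)); linarith
  have h3 : ‖z‖ * (1 - μ / 8) ≤ ‖z‖ * Real.exp (-(μ / 8)) := mul_le_mul_of_nonneg_left h2 hz.le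
  rw [Real.cosh_eq]
  have h4 := Real.exp_pos (-g)
  linarith

/-- (T2) for A -/
theorem T2A {p : ℝ} (hp : 0 < p) (hp1 : p < 1) {ε : ℝ} (hε : 0 < ε) :
    ∃ δ > 0, ∃ R₀ > 0, ∀ z : ℂ, R₀ ≤ ‖z‖ → ∀ g, 0 < g → Real.log ‖z‖ - δ ≤ g →
      Real.log ‖z‖ - Real.log p - ε ≤ FAr p (‖z‖ / 4) g := by
  obtain ⟨μ, h0, h1, h2⟩ := T2_aux hε
  refine ⟨μ / 8, by positivity, 4 / μ, by positivity, fun z hz g hg h => ?_⟩
  have hz0 : 0 < ‖z‖ := lt_of_lt_of_le (by positivity) hz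
  have h3 : 1 / μ ≤ ‖z‖ / 4 := by
    rw [div_le_iff₀ h0] at hz ⊢
    linarith
  have h4 := FAr_ge hp hp1 hg h0 h1 h3 (cosh_ge_of_log hz0 h)
  rw [show 4 * (‖z‖ / 4) = ‖z‖ by ring] at h4
  linarith

/-- (T2) for B -/
theorem T2B {p : ℝ} (hp : 0 < p) (hp1 : p < 1) {ε : ℝ} (hε : 0 < ε) :
    ∃ δ > 0, ∃ R₀ > 0, ∀ z : ℂ, R₀ ≤ ‖z‖ → ∀ g, 0 < g → Real.log ‖z‖ - δ ≤ g →
      Real.log ‖z‖ - Real.log (1 - p) - ε ≤ FBr p (‖z‖ / 4) g := by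
  obtain ⟨μ, h0, h1, h2⟩ := T2_aux hε
  refine ⟨μ / 8, by positivity, 4 / μ, by positivity, fun z hz g hg h => ?_⟩
  have hz0 : 0 < ‖z‖ := lt_of_lt_of_le (by positivity) hz
  have h3 : 1 / μ ≤ ‖z‖ / 4 := by
    rw [div_le_iff₀ h0] at hz ⊢
    linarith
  have h4 := FBr_ge hp hp1 hg h0 h1 h3 (cosh_ge_of_log hz0 h)
  rw [show 4 * (‖z‖ / 4) = ‖z‖ by ring] at h4
  linarith

end Pool.Agent.H70.EH
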